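import Pool.Agent.U694.K9.Comb

set_option autoImplicit false

/-! The antimorphisms of a self-complementary graph on nine vertices. -/

namespace Pool.Agent.U694.K9

open Equiv Equiv.Perm

/-- `tau` as a permutation -/
def tauP (t : Bool) : Perm (Fin 9) where
  toFun x := ⟨tau t x, tau_lt t x x.2⟩
  invFun x := if t then ![7, 0, 1, 2, 3, 4, 5, 6, 8] x else ![3, 0, 1, 2, 7, 4, 5, 6, 8] x
  left_inv := by cases t <;> decide
  right_inv := by cases t <;> decide

theorem tauP_val (t : Bool) (x : Fin 9) : ((tauP t x : Fin 9) : ℕ) = tau t x := rfl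

/-- a relation with antimorphism `φ` -/
structure AntiP (φ : Perm (Fin 9)) (E : Fin 9 → Fin 9 → Prop) : Prop where
  symm : ∀ u v, u ≠ v → (E u v ↔ E v u)
  anti : ∀ u v, u ≠ v → (E (φ u) (φ v) ↔ ¬ E u v)

theorem AntiP.iter {φ : Perm (Fin 9)} {E : Fin 9 → Fin 9 → Prop} (h : AntiP φ E) (k : ℕ) :
    ∀ u v, u ≠ v → (E ((φ ^ k) u) ((φ ^ k) v) ↔ (if k % 2 = 1 then ¬ E u v else E u v)) := by
  induction k with
  | zero => intro u v _; simp
  | succ k ih =>
    intro u v huv
    rw [pow_succ', Perm.mul_apply, Perm.mul_apply, h.anti _ _ (fun e => huv ((φ ^ k).injective e)), ih u v huv]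
    rcases Nat.mod_two_eq_zero_or_one k with hk | hk
    · rw [if_neg (by omega), if_pos (by omega)]
    · rw [if_pos hk, if_neg (by omega), not_not]

theorem AntiP.dvd {φ : Perm (Fin 9)} {E : Fin 9 → Fin 9 → Prop} (h : AntiP φ E) {n : ℕ}
    (hn : n ∈ φ.cycleType) : 4 ∣ n := by
  rw [cycleType_def, Multiset.mem_map] at hn
  obtain ⟨c, hc, rfl⟩ := hn
  have hc' : c ∈ φ.cycleFactorsFinset := hc
  rw [mem_cycleFactorsFinset_iff] at hc'
  obtain ⟨hcyc, hcφ⟩ := hc'
  set n := (Finset.card ∘ support) c with hn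
  have hord : orderOf c = n := hcyc.orderOf
  obtain ⟨a, ha⟩ : ∃ a, a ∈ c.support := by
    obtain ⟨a, ha, -⟩ := hcyc
    exact ⟨a, mem_support.mpr ha⟩
  -- the powers agree
  have hpow : ∀ k : ℕ, (φ ^ k) a = (c ^ k) a ∧ (c ^ k) a ∈ c.support := by
    intro k
    induction k with
    | zero => simpa using ha
    | succ k ih =>
      obtain ⟨h1, h2⟩ := ih
      rw [pow_succ', Perm.mul_apply, h1, ← hcφ _ h2, pow_succ', Perm.mul_apply]
      exact ⟨rfl, by rw [← Perm.mul_apply, ← pow_succ']; exact (pow_apply_mem_support (n := k + 1)).mpr ha⟩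
  have hn0 : 2 ≤ n := by
    have := hcyc.two_le_card_support
    exact this
  have hper : (φ ^ n) a = a := by rw [(hpow n).1, ← hord, pow_orderOf_eq_one]; rfl
  have hne : ∀ k, 0 < k → k < n → (φ ^ k) a ≠ a := by
    intro k hk hkn he
    rw [(hpow k).1] at he
    have h3 : c ^ k = 1 := (hcyc.pow_eq_one_iff' (mem_support.mp ha)).mpr he
    have h4 := orderOf_dvd_of_pow_eq_one h3
    rw [hord] at h4
    exact absurd (Nat.le_of_dvd hk h4) (by omega)
  rcases Nat.even_or_odd n with he | ho
  · obtain ⟨m, hm⟩ := he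
    rcases Nat.even_or_odd m with he' | ho'
    · obtain ⟨r, hr⟩ := he'
      exact ⟨r, by omega⟩
    · exfalso
      have h1 : (φ ^ m) a ≠ a := hne m (by omega) (by omega)
      have h2 := h.iter m _ _ (Ne.symm h1)
      rw [if_pos (Nat.odd_iff.mp ho')] at h2
      have h3 : (φ ^ m) ((φ ^ m) a) = a := by rw [← Perm.mul_apply, ← pow_add, ← hm, hper]
      rw [h3, h.symm _ _ h1] at h2
      tauto
  · exfalso
    have h1 : (φ ^ 1) a ≠ a := hne 1 (by omega) (by omega)
    rw [pow_one] at h1
    have h2 := h.iter n _ _ (Ne.symm h1)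
    rw [if_pos (Nat.odd_iff.mp ho), hper, ← Perm.mul_apply, ← pow_succ, pow_succ', Perm.mul_apply, hper] at h2
    tauto

theorem AntiP.type {φ : Perm (Fin 9)} {E : Fin 9 → Fin 9 → Prop} (h : AntiP φ E) :
    φ.cycleType = {8} ∨ φ.cycleType = {4, 4} := by
  have hsum : φ.cycleType.sum = φ.support.card := sum_cycleType φ
  have hle : φ.support.card ≤ 9 := by simpa using φ.support.card_le_univ
  have hfix : 8 ≤ φ.support.card := by
    by_contra hlt
    have h1 : (φ.supportᶜ).card = 9 - φ.support.card := by rw [Finset.card_compl, Fintype.card_fin]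
    have h2 : 1 < (φ.supportᶜ).card := by omega
    obtain ⟨a, ha, b, hb, hab⟩ := Finset.one_lt_card.mp h2
    rw [Finset.mem_compl, notMem_support] at ha hb
    have h3 := h.anti a b hab
    rw [ha, hb] at h3
    tauto
  have h4 : 4 ∣ φ.cycleType.sum := Multiset.dvd_sum fun n hn => h.dvd hn
  have h8 : φ.cycleType.sum = 8 := by omega
  have hge : ∀ n ∈ φ.cycleType, 4 ≤ n := fun n hn =>
    Nat.le_of_dvd (by have := two_le_of_mem_cycleType hn; omega) (h.dvd hn)
  have hcard : φ.cycleType.card ≤ 2 := by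
    have := Multiset.card_nsmul_le_sum hge
    rw [h8, smul_eq_mul] at this
    omega
  have hdvd : ∀ n ∈ φ.cycleType, 4 ∣ n := fun n hn => h.dvd hn
  generalize φ.cycleType = s at *
  have hc3 : s.card = 0 ∨ s.card = 1 ∨ s.card = 2 := by omega
  rcases hc3 with h0 | h0 | h0
  · rw [Multiset.card_eq_zero] at h0
    subst h0
    simp at h8
  · rw [Multiset.card_eq_one] at h0
    obtain ⟨a, rfl⟩ := h0
    left
    simpa using h8
  · rw [Multiset.card_eq_two] at h0
    obtain ⟨a, b, rfl⟩ := h0
    right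
    have h1 := hge a (by simp)
    have h2 := hge b (by simp)
    have h3 : a + b = 8 := by simpa using h8
    have : a = 4 := by omega
    have : b = 4 := by omega
    subst_vars
    rfl

theorem antiP_true : AntiP (tauP true) (fun x y => parF P1 x y = true) :=
  ⟨by decide +kernel, by decide +kernel⟩
theorem antiP_false : AntiP (tauP false) (fun x y => parF P2 x y = true) :=
  ⟨by decide +kernel, by decide +kernel⟩

theorem type_true : (tauP true).cycleType = {8} := by
  rcases antiP_true.type with h | h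
  · exact h
  · exfalso
    have h1 : orderOf (tauP true) ∣ 4 := by
      rw [← lcm_cycleType, h]; decide
    rw [orderOf_dvd_iff_pow_eq_one] at h1
    have h2 := congrArg (fun f : Perm (Fin 9) => f 0) h1
    revert h2
    decide

theorem type_false : (tauP false).cycleType = {4, 4} := by
  rcases antiP_false.type with h | h
  · exfalso
    have h1 : orderOf (tauP false) = 8 := by
      rw [← lcm_cycleType, h]; decide
    have h2 : (tauP false) ^ 4 = 1 := by
      ext x
      revert x
      decide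
    have h3 := orderOf_dvd_of_pow_eq_one h2
    rw [h1] at h3
    exact absurd h3 (by decide)
  · exact h

/-- every antimorphism is conjugate to a standard one -/
theorem classify {φ : Perm (Fin 9)} {E : Fin 9 → Fin 9 → Prop} (h : AntiP φ E) :
    ∃ (t : Bool) (σ : Perm (Fin 9)), ∀ x, φ (σ x) = σ (tauP t x) := by
  have key : ∃ t, IsConj (tauP t) φ := by
    rcases h.type with h1 | h1
    · exact ⟨true, isConj_iff_cycleType_eq.mpr (by rw [type_true, h1])⟩
    · exact ⟨false, isConj_iff_cycleType_eq.mpr (by rw [type_false, h1])⟩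
  obtain ⟨t, ht⟩ := key
  rw [isConj_iff] at ht
  obtain ⟨σ, hσ⟩ := ht
  refine ⟨t, σ, fun x => ?_⟩
  rw [← hσ]
  simp

/-- the relation in standard coordinates -/
theorem anti_of {φ : Perm (Fin 9)} {E : Fin 9 → Fin 9 → Prop} [DecidableRel E] (h : AntiP φ E) {t : Bool}
    {σ : Perm (Fin 9)} (hσ : ∀ x, φ (σ x) = σ (tauP t x)) :
    Anti t (fun x y => decide (E (σ (Fin.ofNat 9 x)) (σ (Fin.ofNat 9 y)))) := by
  have hof : ∀ x : ℕ, x < 9 → ((Fin.ofNat 9 x : Fin 9) : ℕ) = x := fun x hx => Nat.mod_eq_of_lt hx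
  have hne : ∀ x < 9, ∀ y < 9, x ≠ y → σ (Fin.ofNat 9 x) ≠ σ (Fin.ofNat 9 y) := by
    intro x hx y hy hxy e
    have := congrArg (Fin.val) (σ.injective e)
    rw [hof x hx, hof y hy] at this
    exact hxy this
  have htau : ∀ x < 9, (Fin.ofNat 9 (tau t x) : Fin 9) = tauP t (Fin.ofNat 9 x) := by
    intro x hx
    apply Fin.ext
    rw [tauP_val, hof x hx, hof _ (tau_lt t x hx)]
  refine ⟨fun x hx y hy hxy => ?_, fun x hx y hy hxy => ?_⟩
  · simp only [decide_eq_decide]
    exact h.symm _ _ (hne x hx y hy hxy)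
  · have h1 := h.anti _ _ (hne x hx y hy hxy)
    rw [hσ, hσ, ← htau x hx, ← htau y hy] at h1
    by_cases h2 : E (σ (Fin.ofNat 9 x)) (σ (Fin.ofNat 9 y))
    · simp only [h2, not_true, iff_false] at h1
      show decide _ = !decide _
      rw [decide_eq_false h1, decide_eq_true h2]; rfl
    · simp only [h2, not_false_iff, iff_true] at h1
      show decide _ = !decide _
      rw [decide_eq_true h1, decide_eq_false h2]; rfl

end Pool.Agent.U694.K9
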