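import Pool.Agent.U694.K9.Comb
import Pool.Agent.H650R3.Task571D

set_option autoImplicit false

/-! The topological part: a valid certificate contradicts a drawing without crossings. -/

namespace Pool.Agent.U694.K9

open Set

/-- points and sets joining them; sets of vertex disjoint pairs are disjoint -/
structure Dr (q : ℕ → ℂ) (A : ℕ → ℕ → Set ℂ) (R : ℕ → ℕ → Prop) : Prop where
  joined : ∀ x y, R x y → JoinedIn (A x y) (q x) (q y)
  disj : ∀ x y z w, R x y → R z w → x ≠ z → x ≠ w → y ≠ z → y ≠ w → Disjoint (A x y) (A z w)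

/-- the union along a path -/
def pset (A : ℕ → ℕ → Set ℂ) : ℕ → List ℕ → Set ℂ
  | _, [] => ∅
  | u, w :: l => A u w ∪ pset A w l

/-- a chain -/
def chainR (R : ℕ → ℕ → Prop) : ℕ → List ℕ → Prop
  | _, [] => True
  | u, w :: l => R u w ∧ chainR R w l

theorem chainR_of {R P m v : ℕ} {S : ℕ → ℕ → Prop} (h : ∀ x y, edgeOK R P m v x y = true → S x y) :
    ∀ (l : List ℕ) (u : ℕ), chainOK R P m v u l = true → chainR S u l
  | [], _, _ => trivial
  | w :: l, u, hc => by
    rw [chainOK, Bool.and_eq_true] at hc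
    exact ⟨h _ _ hc.1, chainR_of h l w hc.2⟩

theorem joined_pset {q : ℕ → ℂ} {A : ℕ → ℕ → Set ℂ} {R : ℕ → ℕ → Prop} (h : Dr q A R) :
    ∀ (l : List ℕ) (u w : ℕ), chainR R u (w :: l) →
      JoinedIn (pset A u (w :: l)) (q u) (q (lastV u (w :: l)))
  | [], u, w, hc => (h.joined u w hc.1).mono subset_union_left
  | x :: l, u, w, hc => by
    have h1 : JoinedIn (pset A u (w :: x :: l)) (q u) (q w) := (h.joined u w hc.1).mono subset_union_left
    have h2 : JoinedIn (pset A u (w :: x :: l)) (q w) (q (lastV w (x :: l))) :=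
      (joined_pset h l w x hc.2).mono subset_union_right
    exact h1.trans h2

theorem mem_pset {A : ℕ → ℕ → Set ℂ} {R : ℕ → ℕ → Prop} {z : ℂ} :
    ∀ (l : List ℕ) (u : ℕ), chainR R u l → z ∈ pset A u l →
      ∃ x y, R x y ∧ x ∈ u :: l ∧ y ∈ u :: l ∧ z ∈ A x y
  | [], _, _, hz => absurd hz (notMem_empty z)
  | w :: l, u, hc, hz => by
    rcases hz with hz | hz
    · exact ⟨u, w, hc.1, List.mem_cons_self, List.mem_cons_of_mem _ List.mem_cons_self, hz⟩
    · obtain ⟨x, y, h1, h2, h3, h4⟩ := mem_pset l w hc.2 hz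
      exact ⟨x, y, h1, List.mem_cons_of_mem _ h2, List.mem_cons_of_mem _ h3, h4⟩

theorem disj_pset {q : ℕ → ℂ} {A : ℕ → ℕ → Set ℂ} {R : ℕ → ℕ → Prop} (h : Dr q A R) {u u' : ℕ}
    {l l' : List ℕ} (hc : chainR R u l) (hc' : chainR R u' l') (hd : disj (u :: l) (u' :: l') = true) :
    Disjoint (pset A u l) (pset A u' l') := by
  rw [Set.disjoint_left]
  intro z hz hz'
  obtain ⟨x, y, h1, h2, h3, h4⟩ := mem_pset l u hc hz
  obtain ⟨x', y', h1', h2', h3', h4'⟩ := mem_pset l' u' hc' hz'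
  have hne : ∀ a ∈ u :: l, ∀ b ∈ u' :: l', a ≠ b := by
    intro a ha b hb
    rw [disj, List.all_eq_true] at hd
    have h5 := hd a ha
    rw [List.all_eq_true] at h5
    have h6 := h5 b hb
    rwa [bne_iff_ne] at h6
  exact Set.disjoint_left.mp (h.disj x y x' y' h1 h1' (hne _ h2 _ h2') (hne _ h2 _ h3')
    (hne _ h3 _ h2') (hne _ h3 _ h3')) h4 h4'

/-- what validity gives -/
theorem valid_use {R P : ℕ} {c : Cert} {pr : List (ℕ × ℕ)} {pa : ℕ → ℕ → List ℕ}
    (hv : validW R P c pr pa = true) {q : ℕ → ℂ} {A : ℕ → ℕ → Set ℂ} {S : ℕ → ℕ → Prop}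
    (h : Dr q A S) (hS : ∀ x y, edgeOK R P c.m c.v x y = true → S x y) :
    (∀ a b, (a, b) ∈ pr → JoinedIn (pset A (c.root a) (pa a b)) (q (c.root a)) (q (c.root b))) ∧
    (∀ a b a' b', (a, b) ∈ pr → (a', b') ∈ pr → a ≠ a' → a ≠ b' → b ≠ a' → b ≠ b' →
      Disjoint (pset A (c.root a) (pa a b)) (pset A (c.root a') (pa a' b'))) := by
  rw [validW, List.all_eq_true] at hv
  have key : ∀ a b, (a, b) ∈ pr → pa a b ≠ [] ∧ chainR S (c.root a) (pa a b) ∧
      lastV (c.root a) (pa a b) = c.root b := by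
    intro a b hab
    have h1 := hv (a, b) hab
    rw [Bool.and_eq_true] at h1
    have h2 := h1.1
    simp only [pathOK, Bool.and_eq_true, beq_iff_eq, Bool.not_eq_true', List.isEmpty_eq_false_iff] at h2
    exact ⟨h2.1, chainR_of hS _ _ h2.2.1, h2.2.2⟩
  refine ⟨fun a b hab => ?_, fun a b a' b' hab hab' n1 n2 n3 n4 => ?_⟩
  · obtain ⟨h1, h2, h3⟩ := key a b hab
    obtain ⟨w, l, hl⟩ := List.exists_cons_of_ne_nil h1
    rw [← h3, hl]
    rw [hl] at h2
    exact joined_pset h l _ w h2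
  · obtain ⟨-, h2, -⟩ := key a b hab
    obtain ⟨-, h2', -⟩ := key a' b' hab'
    refine disj_pset h h2 h2' ?_
    have h1 := hv (a, b) hab
    rw [Bool.and_eq_true, List.all_eq_true] at h1
    have h3 := h1.2 (a', b') hab'
    simp only [Bool.or_eq_true, beq_iff_eq] at h3
    rcases h3 with h3 | h3 | h3 | h3 | h3
    · exact absurd h3 n1
    · exact absurd h3 n2
    · exact absurd h3 n3
    · exact absurd h3 n4
    · exact h3

theorem mem_pr5 : ∀ a b : Fin 5, a < b → ((a : ℕ), (b : ℕ)) ∈ pr5 := by decide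
theorem mem_pr3 : ∀ a b : Fin 6, a < 3 → 3 ≤ b → ((a : ℕ), (b : ℕ)) ∈ pr3 := by decide

/-- a valid certificate contradicts a drawing -/
theorem no_drawing {R P : ℕ} {c : Cert} (hv : valid R P c = true) {q : ℕ → ℂ} {A : ℕ → ℕ → Set ℂ}
    {S : ℕ → ℕ → Prop} (h : Dr q A S) (hS : ∀ x y, edgeOK R P c.m c.v x y = true → S x y) : False := by
  unfold valid at hv
  split_ifs at hv with hk
  · obtain ⟨h1, h2⟩ := valid_use hv h hS
    refine Pool.Agent.Helper770.VanKampen.k5_joined (fun i => q (c.root i))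
      (fun a b => pset A (c.root a) (c.path5 a b)) (fun a b hab => h1 _ _ (mem_pr5 a b hab)) ?_
    intro a b a' b' hab hab' n1 n2 n3 n4
    exact h2 _ _ _ _ (mem_pr5 a b hab) (mem_pr5 a' b' hab') (fun e => n1 (Fin.ext e))
      (fun e => n2 (Fin.ext e)) (fun e => n3 (Fin.ext e)) (fun e => n4 (Fin.ext e))
  · obtain ⟨h1, h2⟩ := valid_use hv h hS
    refine Pool.Agent.H650R3.T571D.k33_joined (fun i => q (c.root i))
      (fun a b => pset A (c.root a) (c.path3 a b)) (fun a b hab => h1 _ _ (mem_pr3 a b hab.1 hab.2)) ?_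
    intro a b a' b' hab hab' n1 n4
    have hlt : ∀ x y x' y' : Fin 6, Pool.Agent.H650R3.T571D.E33 x y → Pool.Agent.H650R3.T571D.E33 x' y' →
        x ≠ y' := by decide
    exact h2 _ _ _ _ (mem_pr3 a b hab.1 hab.2) (mem_pr3 a' b' hab'.1 hab'.2) (fun e => n1 (Fin.ext e))
      (fun e => hlt _ _ _ _ hab hab' (Fin.ext e)) (fun e => hlt _ _ _ _ hab' hab (Fin.ext e.symm))
      (fun e => n4 (Fin.ext e))

/-- no relation with a standard antimorphism has a drawing -/
theorem no_anti {t : Bool} {B : ℕ → ℕ → Bool} (hB : Anti t B) {q : ℕ → ℂ} {A : ℕ → ℕ → Set ℂ}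
    (h : Dr q A (fun x y => x < 9 ∧ y < 9 ∧ x ≠ y ∧ B x y = true)) : False := by
  cases t
  · obtain ⟨c, hc, h1⟩ := exists_cert hB table2 (n := 10) rfl cover2
    have hv := valid2
    rw [List.all_eq_true] at hv
    exact no_drawing (hv c hc) h h1
  · obtain ⟨c, hc, h1⟩ := exists_cert hB table1 (n := 5) rfl cover1
    have hv := valid1
    rw [List.all_eq_true] at hv
    exact no_drawing (hv c hc) h h1

end Pool.Agent.U694.K9
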