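import Pool.Agent.U694.K9.Defs
import Pool.Agent.U694.K9.Classify
import Pool.Agent.U694.K9.Top

set_option autoImplicit false

/-! Both planes of a drawing with isomorphic plane subgraphs have a crossing. -/

namespace Pool.Agent.U694.K9

open Set

/-- one plane of a drawing has a crossing when its graph is self-complementary -/
theorem crossing {c : Fin 9 → Fin 9 → Fin 2} {p : Fin 2 → Fin 9 → ℂ} {γ : Fin 2 → Fin 9 → Fin 9 → ℝ → ℂ}
    (h : DR c p γ) (i : Fin 2) {φ : Equiv.Perm (Fin 9)} (hφ : AntiP φ (fun u v => c u v = i)) :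
    ∃ a b a' b' : Fin 9, a ≠ b ∧ a' ≠ b' ∧ a ≠ a' ∧ a ≠ b' ∧ b ≠ a' ∧ b ≠ b' ∧ c a b = i ∧ c a' b' = i ∧
      ∃ z : ℂ, (∃ t : ℝ, 0 < t ∧ t < 1 ∧ γ i a b t = z) ∧ (∃ t : ℝ, 0 < t ∧ t < 1 ∧ γ i a' b' t = z) := by
  by_contra hcon
  obtain ⟨hsym, hinj, hdr⟩ := h
  obtain ⟨t, σ, hσ⟩ := classify hφ
  have hanti := anti_of hφ hσ
  set f : ℕ → Fin 9 := fun x => σ (Fin.ofNat 9 x) with hf
  have hfne : ∀ x < 9, ∀ y < 9, x ≠ y → f x ≠ f y := by
    intro x hx y hy hxy e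
    have := congrArg (Fin.val) (σ.injective e)
    rw [show ((Fin.ofNat 9 x : Fin 9) : ℕ) = x from Nat.mod_eq_of_lt hx,
      show ((Fin.ofNat 9 y : Fin 9) : ℕ) = y from Nat.mod_eq_of_lt hy] at this
    exact hxy this
  refine no_anti hanti (q := fun x => p i (f x)) (A := fun x y => γ i (f x) (f y) '' Icc 0 1) ⟨?_, ?_⟩
  · rintro x y ⟨hx, hy, hxy, hB⟩
    have hE : c (f x) (f y) = i := of_decide_eq_true hB
    obtain ⟨h1, h2, h3, h4, -, -⟩ := hdr i (f x) (f y) (hfne x hx y hy hxy) hE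
    exact JoinedIn.ofLine h1 h3 h4 subset_rfl
  · rintro x y z w ⟨hx, hy, hxy, hB⟩ ⟨hz, hw, hzw, hB'⟩ n1 n2 n3 n4
    have hE : c (f x) (f y) = i := of_decide_eq_true hB
    have hE' : c (f z) (f w) = i := of_decide_eq_true hB'
    obtain ⟨-, -, h3, h4, -, h6⟩ := hdr i (f x) (f y) (hfne x hx y hy hxy) hE
    obtain ⟨-, -, h3', h4', -, h6'⟩ := hdr i (f z) (f w) (hfne z hz w hw hzw) hE'
    rw [Set.disjoint_left]
    rintro u ⟨s, ⟨s0, s1⟩, hs⟩ ⟨r, ⟨r0, r1⟩, hr⟩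
    have m1 := hfne x hx z hz n1
    have m2 := hfne x hx w hw n2
    have m3 := hfne y hy z hz n3
    have m4 := hfne y hy w hw n4
    have hI := hinj i
    rcases eq_or_lt_of_le s0 with hs0 | hs0
    · -- the point is the first end of the first arc
      have hu : u = p i (f x) := by rw [← hs, ← hs0, h3]
      rcases eq_or_lt_of_le r0 with hr0 | hr0
      · exact m1 (hI (by rw [← hu, ← hr, ← hr0, h3']))
      rcases eq_or_lt_of_le r1 with hr1 | hr1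
      · exact m2 (hI (by rw [← hu, ← hr, hr1, h4']))
      · exact h6' r hr0 hr1 (f x) (by rw [hr, hu])
    rcases eq_or_lt_of_le s1 with hs1 | hs1
    · have hu : u = p i (f y) := by rw [← hs, hs1, h4]
      rcases eq_or_lt_of_le r0 with hr0 | hr0
      · exact m3 (hI (by rw [← hu, ← hr, ← hr0, h3']))
      rcases eq_or_lt_of_le r1 with hr1 | hr1
      · exact m4 (hI (by rw [← hu, ← hr, hr1, h4']))
      · exact h6' r hr0 hr1 (f y) (by rw [hr, hu])
    rcases eq_or_lt_of_le r0 with hr0 | hr0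
    · exact h6 s hs0 hs1 (f z) (by rw [hs, ← hr, ← hr0, h3'])
    rcases eq_or_lt_of_le r1 with hr1 | hr1
    · exact h6 s hs0 hs1 (f w) (by rw [hs, ← hr, hr1, h4'])
    exact hcon ⟨f x, f y, f z, f w, hfne x hx y hy hxy, hfne z hz w hw hzw, m1, m2, m3, m4, hE, hE', u,
      ⟨s, hs0, hs1, hs⟩, ⟨r, hr0, hr1, hr⟩⟩

/-- the eight symmetries of an ordered pair of ordered pairs -/
def T8 : Fin 8 → Fin 4 → Fin 4 :=
  ![![0, 1, 2, 3], ![1, 0, 2, 3], ![0, 1, 3, 2], ![1, 0, 3, 2], ![2, 3, 0, 1], ![2, 3, 1, 0], ![3, 2, 0, 1],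
    ![3, 2, 1, 0]]

theorem T8_inj : ∀ k l : Fin 8, (T8 k 0 = T8 l 0 ∧ T8 k 1 = T8 l 1 ∧ T8 k 2 = T8 l 2) → k = l := by decide

theorem XS_swap1 {c : Fin 9 → Fin 9 → Fin 2} {p : Fin 2 → Fin 9 → ℂ} {γ : Fin 2 → Fin 9 → Fin 9 → ℝ → ℂ}
    (h : DR c p γ) {i : Fin 2} {a b a' b' : Fin 9} {z : ℂ} (hx : (i, a, b, a', b', z) ∈ XS c γ) :
    (i, b, a, a', b', z) ∈ XS c γ := by
  obtain ⟨hsym, hinj, hdr⟩ := h
  obtain ⟨h1, h2, h3, h4, h5, h6, ⟨t, t0, t1, ht⟩, h8⟩ := hx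
  dsimp only at h1 h2 h3 h4 h5 h6 ht h8
  refine ⟨h1.symm, h2, (hsym _ _ h1).symm.trans h3, h4, fun e => h6 ⟨e.2, e.1⟩, fun e => h5 ⟨e.2, e.1⟩,
    ⟨1 - t, by linarith, by linarith, ?_⟩, h8⟩
  obtain ⟨-, -, -, -, h9, -⟩ := hdr i a b h1 h3
  dsimp only
  rw [h9 (1 - t) (by linarith) (by linarith), sub_sub_cancel, ht]

theorem XS_swap3 {c : Fin 9 → Fin 9 → Fin 2} {γ : Fin 2 → Fin 9 → Fin 9 → ℝ → ℂ}
    {i : Fin 2} {a b a' b' : Fin 9} {z : ℂ} (hx : (i, a, b, a', b', z) ∈ XS c γ) :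
    (i, a', b', a, b, z) ∈ XS c γ := by
  obtain ⟨h1, h2, h3, h4, h5, h6, h7, h8⟩ := hx
  exact ⟨h2, h1, h4, h3, fun e => h5 ⟨e.1.symm, e.2.symm⟩, fun e => h6 ⟨e.2.symm, e.1.symm⟩, h8, h7⟩

theorem lower {c : Fin 9 → Fin 9 → Fin 2} {p : Fin 2 → Fin 9 → ℂ} {γ : Fin 2 → Fin 9 → Fin 9 → ℝ → ℂ}
    (h : DR c p γ) (hfin : (XS c γ).Finite) {φ : Equiv.Perm (Fin 9)}
    (hφ : ∀ u v, u ≠ v → (c u v = 0 ↔ c (φ u) (φ v) = 1)) : 16 ≤ (XS c γ).ncard := by
  have hsym := h.1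
  have h01 : ∀ j : Fin 2, j = 0 ↔ ¬ j = 1 := by decide
  have hA : ∀ i : Fin 2, AntiP φ (fun u v => c u v = i) := by
    intro i
    have hi : ∀ i : Fin 2, i = 0 ∨ i = 1 := by decide
    refine ⟨fun u v huv => ?_, fun u v huv => ?_⟩
    · show c u v = i ↔ c v u = i
      rw [hsym u v huv]
    · have h1 := hφ u v huv
      rcases hi i with rfl | rfl
      · show c (φ u) (φ v) = 0 ↔ ¬ c u v = 0
        rw [h1, h01]
      · show c (φ u) (φ v) = 1 ↔ ¬ c u v = 1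
        rw [← h1, h01]
  have hC : ∀ i : Fin 2, ∃ (v : Fin 4 → Fin 9) (z : ℂ), Function.Injective v ∧
      (i, v 0, v 1, v 2, v 3, z) ∈ XS c γ := by
    intro i
    obtain ⟨a, b, a', b', m1, m2, m3, m4, m5, m6, m7, m8, z, m9, m10⟩ := crossing h i (hA i)
    refine ⟨![a, b, a', b'], z, ?_, ?_⟩
    · intro x y hxy
      fin_cases x <;> fin_cases y <;>
        first
        | rfl
        | (exfalso
           simp only [Fin.mk_zero, Fin.mk_one, Fin.isValue, Fin.zero_eta, Matrix.cons_val_zero,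
             Matrix.cons_val_one, Fin.reduceFinMk, Matrix.cons_val] at hxy
           first
           | exact m1 hxy
           | exact m1 hxy.symm
           | exact m2 hxy
           | exact m2 hxy.symm
           | exact m3 hxy
           | exact m3 hxy.symm
           | exact m4 hxy
           | exact m4 hxy.symm
           | exact m5 hxy
           | exact m5 hxy.symm
           | exact m6 hxy
           | exact m6 hxy.symm)
    · exact ⟨m1, m2, m7, m8, fun e => m3 e.1, fun e => m4 e.1, m9, m10⟩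
  choose v z hv hX using hC
  -- the sixteen tuples
  let F : Fin 2 × Fin 8 → Fin 2 × Fin 9 × Fin 9 × Fin 9 × Fin 9 × ℂ := fun x =>
    (x.1, v x.1 (T8 x.2 0), v x.1 (T8 x.2 1), v x.1 (T8 x.2 2), v x.1 (T8 x.2 3), z x.1)
  have hFinj : Function.Injective F := by
    rintro ⟨i, k⟩ ⟨j, l⟩ hkl
    simp only [F, Prod.mk.injEq] at hkl
    obtain ⟨rfl, e1, e2, e3, -, -⟩ := hkl
    rw [T8_inj k l ⟨hv i e1, hv i e2, hv i e3⟩]
  have hFmem : ∀ x, F x ∈ XS c γ := by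
    rintro ⟨i, k⟩
    have b0 := hX i
    have b1 := XS_swap1 h b0
    have b2 := XS_swap3 b0
    have b3 := XS_swap3 b1
    have b4 := XS_swap1 h b2
    have b5 := XS_swap1 h b3
    have b6 := XS_swap3 b4
    have b7 := XS_swap3 b5
    fin_cases k
    · exact b0
    · exact b1
    · exact b6
    · exact b7
    · exact b2
    · exact b3
    · exact b4
    · exact b5
  have h1 : (Set.range F).ncard = 16 := by
    rw [← Set.image_univ, Set.ncard_image_of_injective _ hFinj, Set.ncard_univ, Nat.card_eq_fintype_card]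
    simp
  have h2 : Set.range F ⊆ XS c γ := by
    rintro _ ⟨x, rfl⟩
    exact hFmem x
  rw [← h1]
  exact Set.ncard_le_ncard h2 hfin

end Pool.Agent.U694.K9
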