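import Pool.Agent.U694.K9.Defs
import Pool.Agent.Helper770.Straight

set_option autoImplicit false

/-! A drawing of the complete graph on nine vertices on two planes with one crossing. -/

namespace Pool.Agent.U694.K9

open Pool.Agent.Helper770.Straight

def cX : Fin 2 → Fin 9 → ℤ := ![![2, 2, 1, 1, 7, 4, 3, 4, 0], ![4, 5, 2, 5, 0, 7, 2, 0, 1]]
def cY : Fin 2 → Fin 9 → ℤ := ![![3, 5, 6, 7, 3, 2, 2, 4, 0], ![4, 1, 7, 2, 0, 6, 1, 2, 3]]

def oZ (i : Fin 2) (a b c : Fin 9) : ℤ :=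
  (cX i b - cX i a) * (cY i c - cY i a) - (cY i b - cY i a) * (cX i c - cX i a)

def col (a b : Fin 9) : Fin 2 :=
  if a.val + 1 = b.val ∨ b.val + 1 = a.val ∨ 7 ≤ a.val ∨ 7 ≤ b.val then 0 else 1

def opp (x y : ℤ) : Bool := decide (x * y < 0) || ((x == 0) && (y == 0))

def L8 : Finset (Fin 2 × Fin 9 × Fin 9 × Fin 9 × Fin 9) :=
  {(1, 0, 4, 2, 6), (1, 0, 4, 6, 2), (1, 2, 6, 0, 4), (1, 2, 6, 4, 0), (1, 4, 0, 2, 6), (1, 4, 0, 6, 2),
    (1, 6, 2, 0, 4), (1, 6, 2, 4, 0)}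

theorem L8_card : L8.card = 8 := by decide

theorem cxy_inj : ∀ (i : Fin 2) (a b : Fin 9), cX i a = cX i b → cY i a = cY i b → a = b := by decide +kernel

theorem oZ_gen : ∀ (i : Fin 2) (a b c : Fin 9), a ≠ b → c ≠ a → c ≠ b → oZ i a b c ≠ 0 := by decide +kernel

theorem comb8 : ∀ (i : Fin 2) (a b c d : Fin 9), a ≠ b → c ≠ d → col a b = i → col c d = i →
    ¬ (a = c ∧ b = d) → ¬ (a = d ∧ b = c) → opp (oZ i a b c) (oZ i a b d) = true →
    opp (oZ i c d a) (oZ i c d b) = true → (i, a, b, c, d) ∈ L8 := by decide +kernel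

noncomputable def pp (i : Fin 2) (a : Fin 9) : ℂ := ⟨(cX i a : ℝ), (cY i a : ℝ)⟩

theorem ori_pp (i : Fin 2) (a b c : Fin 9) : ori (pp i a) (pp i b) (pp i c) = (oZ i a b c : ℝ) := by
  simp only [ori, pp, oZ]
  push_cast
  ring

theorem pp_inj (i : Fin 2) : Function.Injective (pp i) := by
  intro a b h
  have h1 := congrArg Complex.re h
  have h2 := congrArg Complex.im h
  simp only [pp] at h1 h2
  exact cxy_inj i a b (by exact_mod_cast h1) (by exact_mod_cast h2)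

theorem opp_of {x y : ℤ} {t : ℝ} (h0 : 0 < t) (h1 : t < 1) (h : (1 - t) * (x : ℝ) + t * (y : ℝ) = 0) :
    opp x y = true := by
  have h1' : 0 < 1 - t := by linarith
  rw [opp, Bool.or_eq_true, decide_eq_true_eq, Bool.and_eq_true, beq_iff_eq, beq_iff_eq]
  rcases lt_trichotomy x 0 with hx | hx | hx
  · left
    have hx' : (x : ℝ) < 0 := by exact_mod_cast hx
    have hy : (0 : ℝ) < y := by
      have : t * (y : ℝ) = (1 - t) * (-(x : ℝ)) := by linarith
      have h3 : 0 < t * (y : ℝ) := by rw [this]; exact mul_pos h1' (by linarith)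
      exact (pos_iff_pos_of_mul_pos h3).mp h0
    have hy' : 0 < y := by exact_mod_cast hy
    exact mul_neg_of_neg_of_pos hx hy'
  · right
    refine ⟨hx, ?_⟩
    rw [hx] at h
    have : t * (y : ℝ) = 0 := by simpa using h
    rcases mul_eq_zero.mp this with h3 | h3
    · exact absurd h3 h0.ne'
    · exact_mod_cast h3
  · left
    have hx' : (0 : ℝ) < x := by exact_mod_cast hx
    have hy : (y : ℝ) < 0 := by
      have : t * (-(y : ℝ)) = (1 - t) * (x : ℝ) := by linarith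
      have h3 : 0 < t * (-(y : ℝ)) := by rw [this]; exact mul_pos h1' hx'
      have := (pos_iff_pos_of_mul_pos h3).mp h0
      linarith
    have hy' : y < 0 := by exact_mod_cast hy
    exact mul_neg_of_pos_of_neg hx hy'

theorem upper_DR : DR col pp (fun i u v => seg (pp i u) (pp i v)) := by
  refine ⟨by decide, pp_inj, ?_⟩
  intro i u v huv _
  have hne : pp i u ≠ pp i v := fun h => huv (pp_inj i h)
  refine ⟨(seg_cont _ _).continuousOn, fun s _ t _ h => seg_inj hne h, seg_zero _ _, seg_one _ _,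
    fun t _ _ => seg_comm _ _ _, ?_⟩
  intro t h0 h1 w hw
  change seg (pp i u) (pp i v) t = pp i w at hw
  by_cases hu : w = u
  · have h2 : seg (pp i u) (pp i v) t = seg (pp i u) (pp i v) 0 := by rw [hw, seg_zero, hu]
    exact h0.ne' (seg_inj hne h2)
  by_cases hv : w = v
  · have h2 : seg (pp i u) (pp i v) t = seg (pp i u) (pp i v) 1 := by rw [hw, seg_one, hv]
    exact h1.ne (seg_inj hne h2)
  have h4 : seg (pp i u) (pp i v) t = seg (pp i w) (pp i w) 0 := by rw [hw, seg_zero]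
  have h5 := ori_seg h4
  rw [ori_pp] at h5
  have h6 : (oZ i u v w : ℝ) = 0 := by linarith
  exact oZ_gen i u v w huv hu hv (by exact_mod_cast h6)

theorem upper_maps : ∀ x ∈ XS col (fun i u v => seg (pp i u) (pp i v)),
    (x.1, x.2.1, x.2.2.1, x.2.2.2.1, x.2.2.2.2.1) ∈ (L8 : Set (Fin 2 × Fin 9 × Fin 9 × Fin 9 × Fin 9)) := by
  rintro ⟨i, a, b, c, d, z⟩ ⟨hab, hcd, ci, ci', n1, n2, ⟨t, t0, t1, ht⟩, ⟨s, s0, s1, hs⟩⟩
  change a ≠ b at hab
  change c ≠ d at hcd
  refine comb8 i a b c d hab hcd ci ci' n1 n2 ?_ ?_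
  · refine opp_of s0 s1 ?_
    rw [← ori_pp, ← ori_pp]
    exact ori_seg (ht.trans hs.symm)
  · refine opp_of t0 t1 ?_
    rw [← ori_pp, ← ori_pp]
    exact ori_seg (hs.trans ht.symm)

theorem nodeg8 : ∀ x ∈ L8, oZ x.1 x.2.1 x.2.2.1 x.2.2.2.1 ≠ oZ x.1 x.2.1 x.2.2.1 x.2.2.2.2 := by
  intro x hx
  simp only [L8, Finset.mem_insert, Finset.mem_singleton] at hx
  rcases hx with rfl | rfl | rfl | rfl | rfl | rfl | rfl | rfl <;> decide

theorem upper_inj : Set.InjOn (fun x : Fin 2 × Fin 9 × Fin 9 × Fin 9 × Fin 9 × ℂ =>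
    (x.1, x.2.1, x.2.2.1, x.2.2.2.1, x.2.2.2.2.1)) (XS col (fun i u v => seg (pp i u) (pp i v))) := by
  rintro ⟨i, a, b, c, d, z⟩ hx ⟨i', a', b', c', d', z'⟩ hx' heq
  have h8 := upper_maps _ hx
  simp only [Prod.mk.injEq] at heq
  obtain ⟨rfl, rfl, rfl, rfl, rfl⟩ := heq
  have hnd := nodeg8 _ (by simpa using h8)
  obtain ⟨-, -, -, -, -, -, ⟨t, t0, t1, ht⟩, ⟨s, s0, s1, hs⟩⟩ := hx
  obtain ⟨-, -, -, -, -, -, ⟨t', t0', t1', ht'⟩, ⟨s', s0', s1', hs'⟩⟩ := hx'
  have e1 := ori_seg (ht.trans hs.symm)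
  have e2 := ori_seg (ht'.trans hs'.symm)
  rw [ori_pp, ori_pp] at e1 e2
  dsimp only at e1 e2 hnd
  have hss : s = s' := by
    by_contra hne
    have h3 : (s - s') * ((oZ i a b d : ℝ) - (oZ i a b c : ℝ)) = 0 := by linarith
    rcases mul_eq_zero.mp h3 with h4 | h4
    · exact hne (by linarith)
    · apply hnd
      have : (oZ i a b c : ℝ) = (oZ i a b d : ℝ) := by linarith
      exact_mod_cast this
  have hz : z = z' := by
    have h1 : seg (pp i c) (pp i d) s = z := hs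
    have h2 : seg (pp i c) (pp i d) s' = z' := hs'
    rw [← h1, ← h2, hss]
  rw [hz]

theorem upper_finite : (XS col (fun i u v => seg (pp i u) (pp i v))).Finite :=
  Set.Finite.of_injOn (fun x hx => upper_maps x hx) upper_inj L8.finite_toSet

theorem upper_ncard : (XS col (fun i u v => seg (pp i u) (pp i v))).ncard ≤ 8 := by
  have h := Set.ncard_le_ncard_of_injOn _ (fun x hx => upper_maps x hx) upper_inj L8.finite_toSet
  rwa [Set.ncard_coe_finset, L8_card] at h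

end Pool.Agent.U694.K9
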