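import Mathlib

set_option autoImplicit false

/-! Certificates for the nonplanarity of the self-complementary graphs on nine vertices. -/

namespace Pool.Agent.U694.K9

/-- A certificate: a subdivision of `K₅` or of `K₃,₃` in all graphs whose bits at the places of `m` are
those of `v`. The paths are given without their first vertex. -/
structure Cert where
  k5 : Bool
  m : ℕ
  v : ℕ
  roots : List ℕ
  paths : List (List ℕ)

/-- the standard permutations: an eight-cycle, or two four-cycles, and a fixed point -/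
def tau (t : Bool) (x : ℕ) : ℕ :=
  if t then (if x < 8 then (x + 1) % 8 else x)
  else (if x < 4 then (x + 1) % 4 else if x < 8 then 4 + (x + 1) % 4 else x)

/-- index of the orbit of a pair -/
def repF (R x y : ℕ) : ℕ := (R >>> (4 * (9 * x + y))) &&& 15
/-- parity of a pair in its orbit -/
def parF (P x y : ℕ) : Bool := P.testBit (9 * x + y)

/-- the pair `x`, `y` is an edge of all graphs of the certificate -/
def edgeOK (R P m v x y : ℕ) : Bool :=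
  decide (x < 9) && (decide (y < 9) && ((x != y) && (m.testBit (repF R x y) &&
    (v.testBit (repF R x y) != parF P x y))))

/-- all the pairs of a path are edges -/
def chainOK (R P m v : ℕ) : ℕ → List ℕ → Bool
  | _, [] => true
  | u, w :: l => edgeOK R P m v u w && chainOK R P m v w l

/-- the last vertex of a path -/
def lastV : ℕ → List ℕ → ℕ
  | u, [] => u
  | _, w :: l => lastV w l

/-- a path from `u` to `w` -/
def pathOK (R P m v u w : ℕ) (l : List ℕ) : Bool :=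
  !l.isEmpty && (chainOK R P m v u l && (lastV u l == w))

/-- disjoint lists -/
def disj (l l' : List ℕ) : Bool := l.all fun x => l'.all fun y => x != y

/-- the roots -/
def Cert.root (c : Cert) (a : ℕ) : ℕ := c.roots.getD a 0
/-- the path of a pair, `K₃,₃` -/
def Cert.path3 (c : Cert) (a b : ℕ) : List ℕ := c.paths.getD (3 * a + b - 3) []
/-- the path of a pair, `K₅` -/
def Cert.path5 (c : Cert) (a b : ℕ) : List ℕ := c.paths.getD (a * (9 - a) / 2 + b - a - 1) []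

/-- the pairs of indices with a path in `K₃,₃` -/
def pr3 : List (ℕ × ℕ) := [(0, 3), (0, 4), (0, 5), (1, 3), (1, 4), (1, 5), (2, 3), (2, 4), (2, 5)]
/-- the pairs of indices with a path in `K₅` -/
def pr5 : List (ℕ × ℕ) :=
  [(0, 1), (0, 2), (0, 3), (0, 4), (1, 2), (1, 3), (1, 4), (2, 3), (2, 4), (3, 4)]

/-- validity of a certificate with the pairs `pr` and the paths `pa` -/
def validW (R P : ℕ) (c : Cert) (pr : List (ℕ × ℕ)) (pa : ℕ → ℕ → List ℕ) : Bool :=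
  pr.all fun i => pathOK R P c.m c.v (c.root i.1) (c.root i.2) (pa i.1 i.2) &&
    pr.all fun j => (i.1 == j.1) || ((i.1 == j.2) || ((i.2 == j.1) || ((i.2 == j.2) ||
      disj (c.root i.1 :: pa i.1 i.2) (c.root j.1 :: pa j.1 j.2))))

/-- validity of a certificate -/
def valid (R P : ℕ) (c : Cert) : Bool :=
  if c.k5 then validW R P c pr5 c.path5 else validW R P c pr3 c.path3

/-- the table of the orbits of the pairs, four bits for every pair -/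
def R1 : ℕ := 569596542903962597902270704791199173855802997809273505520827539968748204725417097680813534945536

/-- the table of the parities -/
def P1 : ℕ := 805597720541327920953504

/-- the representatives of the orbits -/
def base1 : List (ℕ × ℕ) := [(0, 1), (0, 2), (0, 3), (0, 4), (0, 8)]

/-- the certificates -/
def L1 : List Cert := [
  ⟨true, 26, 0, [1, 3, 5, 7, 8], [[3], [5], [7], [8], [5], [7], [8], [7], [8], [8]]⟩,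
  ⟨true, 26, 26, [0, 2, 4, 6, 8], [[2], [4], [6], [8], [4], [6], [8], [6], [8], [8]]⟩,
  ⟨false, 23, 3, [0, 3, 4, 1, 2, 6], [[1], [2], [6], [8, 1], [2], [6], [1], [2], [6]]⟩,
  ⟨false, 23, 6, [0, 1, 4, 2, 3, 6], [[2], [3], [6], [2], [8, 3], [6], [2], [3], [6]]⟩,
  ⟨false, 23, 17, [0, 3, 7, 1, 2, 5], [[1], [8, 2], [5], [1], [2], [5], [1], [2], [5]]⟩,
  ⟨false, 23, 20, [0, 1, 5, 2, 3, 7], [[8, 2], [3], [7], [2], [3], [7], [2], [3], [7]]⟩,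
  ⟨true, 27, 8, [1, 3, 5, 7, 8], [[3], [2, 6, 5], [7], [8], [5], [4, 0, 7], [8], [7], [8], [8]]⟩,
  ⟨true, 27, 9, [1, 3, 5, 7, 8], [[3], [0, 4, 5], [7], [8], [5], [2, 6, 7], [8], [7], [8], [8]]⟩,
  ⟨true, 27, 18, [0, 2, 4, 6, 8], [[2], [7, 3, 4], [6], [8], [4], [1, 5, 6], [8], [6], [8], [8]]⟩,
  ⟨true, 27, 19, [0, 2, 4, 6, 8], [[2], [1, 5, 4], [6], [8], [4], [3, 7, 6], [8], [6], [8], [8]]⟩,
  ⟨false, 27, 2, [0, 1, 4, 2, 3, 6], [[2], [7, 3], [6], [2], [8, 3], [5, 6], [2], [3], [6]]⟩,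
  ⟨false, 27, 3, [0, 3, 4, 1, 2, 6], [[1], [2], [6], [8, 1], [2], [7, 6], [5, 1], [2], [6]]⟩,
  ⟨true, 27, 10, [0, 2, 4, 6, 8], [[2], [4], [6], [7, 8], [4], [6], [1, 8], [6], [3, 8], [5, 8]]⟩,
  ⟨true, 27, 11, [0, 2, 4, 6, 8], [[2], [4], [6], [1, 8], [4], [6], [3, 8], [6], [5, 8], [7, 8]]⟩,
  ⟨true, 27, 16, [1, 3, 5, 7, 8], [[3], [5], [7], [2, 8], [5], [7], [4, 8], [7], [6, 8], [0, 8]]⟩,
  ⟨true, 27, 17, [1, 3, 5, 7, 8], [[3], [5], [7], [0, 8], [5], [7], [2, 8], [7], [4, 8], [6, 8]]⟩,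
  ⟨false, 27, 24, [0, 1, 5, 2, 3, 7], [[8, 2], [4, 3], [7], [2], [3], [7], [6, 2], [3], [7]]⟩,
  ⟨false, 27, 25, [0, 3, 7, 1, 2, 5], [[1], [8, 2], [4, 5], [1], [2], [5], [1], [6, 2], [5]]⟩]

/-- the table of the orbits of the pairs, four bits for every pair -/
def R2 : ℕ := 1281585703119150816379333607525042953596817185204984278018576840501259012416719566114244443373824

/-- the table of the parities -/
def P2 : ℕ := 805699213636142164080648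

/-- the representatives of the orbits -/
def base2 : List (ℕ × ℕ) := [(0, 1), (0, 2), (0, 4), (0, 5), (0, 6), (0, 7), (0, 8), (4, 5), (4, 6), (4, 8)]

/-- the certificates -/
def L2 : List Cert := [
  ⟨false, 335, 10, [0, 1, 7, 2, 3, 5], [[2], [3], [5], [2], [8, 3], [5], [2], [3], [5]]⟩,
  ⟨false, 335, 72, [0, 1, 7, 2, 3, 5], [[8, 2], [3], [5], [2], [3], [5], [2], [3], [5]]⟩,
  ⟨false, 335, 263, [0, 3, 6, 1, 2, 4], [[1], [2], [4], [8, 1], [2], [4], [1], [2], [4]]⟩,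
  ⟨false, 335, 325, [0, 3, 6, 1, 2, 4], [[1], [8, 2], [4], [1], [2], [4], [1], [2], [4]]⟩,
  ⟨false, 347, 11, [0, 3, 7, 1, 2, 5], [[1], [2], [5], [8, 1], [2], [5], [1], [2], [5]]⟩,
  ⟨false, 347, 73, [0, 3, 7, 1, 2, 5], [[1], [8, 2], [5], [1], [2], [5], [1], [2], [5]]⟩,
  ⟨false, 347, 274, [0, 1, 4, 2, 3, 6], [[2], [3], [6], [2], [8, 3], [6], [2], [3], [6]]⟩,
  ⟨false, 347, 336, [0, 1, 4, 2, 3, 6], [[8, 2], [3], [6], [2], [3], [6], [2], [3], [6]]⟩,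
  ⟨false, 599, 66, [0, 5, 7, 1, 3, 8], [[2, 1], [3], [8], [1], [3], [8], [1], [3], [8]]⟩,
  ⟨false, 599, 67, [0, 5, 7, 1, 3, 8], [[1], [2, 3], [8], [1], [3], [8], [1], [3], [8]]⟩,
  ⟨false, 599, 532, [0, 2, 8, 1, 4, 6], [[3, 1], [4], [6], [1], [4], [6], [1], [4], [6]]⟩,
  ⟨false, 599, 533, [0, 2, 8, 1, 4, 6], [[1], [4], [6], [3, 1], [4], [6], [1], [4], [6]]⟩,
  ⟨false, 619, 40, [0, 2, 8, 1, 5, 7], [[3, 1], [5], [7], [1], [5], [7], [1], [5], [7]]⟩,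
  ⟨false, 619, 41, [0, 2, 8, 1, 5, 7], [[1], [5], [7], [3, 1], [5], [7], [1], [5], [7]]⟩,
  ⟨false, 619, 578, [0, 4, 6, 1, 3, 8], [[2, 1], [3], [8], [1], [3], [8], [1], [3], [8]]⟩,
  ⟨false, 619, 579, [0, 4, 6, 1, 3, 8], [[1], [2, 3], [8], [1], [3], [8], [1], [3], [8]]⟩,
  ⟨false, 910, 270, [0, 6, 7, 2, 4, 5], [[2], [4], [5], [2], [4], [5], [2], [4], [8, 5]]⟩,
  ⟨false, 910, 640, [1, 4, 7, 3, 5, 6], [[3], [5], [6], [3], [5], [8, 6], [3], [5], [6]]⟩,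
  ⟨false, 922, 410, [0, 4, 7, 2, 5, 6], [[2], [5], [6], [2], [5], [6], [2], [8, 5], [6]]⟩,
  ⟨false, 922, 512, [1, 4, 5, 3, 6, 7], [[3], [6], [7], [3], [8, 6], [7], [3], [6], [7]]⟩,
  ⟨false, 980, 84, [0, 2, 5, 4, 6, 8], [[4], [6], [8], [4], [6], [8], [7, 4], [6], [8]]⟩,
  ⟨false, 980, 212, [0, 2, 5, 4, 6, 8], [[4], [6], [8], [4], [6], [8], [4], [7, 6], [8]]⟩,
  ⟨false, 980, 768, [1, 3, 4, 5, 7, 8], [[5], [7], [8], [5], [7], [8], [6, 5], [7], [8]]⟩,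
  ⟨false, 980, 896, [1, 3, 4, 5, 7, 8], [[5], [7], [8], [5], [7], [8], [5], [6, 7], [8]]⟩,
  ⟨false, 1000, 0, [1, 3, 5, 4, 6, 8], [[4], [6], [8], [4], [6], [8], [7, 4], [6], [8]]⟩,
  ⟨false, 1000, 128, [1, 3, 5, 4, 6, 8], [[4], [6], [8], [4], [6], [8], [4], [7, 6], [8]]⟩,
  ⟨false, 1000, 872, [0, 2, 4, 5, 7, 8], [[5], [7], [8], [5], [7], [8], [6, 5], [7], [8]]⟩,
  ⟨false, 1000, 1000, [0, 2, 4, 5, 7, 8], [[5], [7], [8], [5], [7], [8], [5], [6, 7], [8]]⟩,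
  ⟨false, 934, 256, [1, 6, 7, 3, 4, 5], [[3], [4], [5], [3], [4], [5], [3], [4], [8, 5]]⟩,
  ⟨false, 934, 678, [0, 5, 6, 2, 4, 7], [[2], [4], [7], [2], [4], [7], [2], [8, 4], [7]]⟩,
  ⟨false, 946, 384, [1, 5, 6, 3, 4, 7], [[3], [4], [7], [3], [4], [8, 7], [3], [4], [7]]⟩,
  ⟨false, 946, 562, [0, 4, 5, 2, 6, 7], [[2], [6], [7], [2], [8, 6], [7], [2], [6], [7]]⟩,
  ⟨false, 359, 35, [0, 3, 5, 1, 2, 7], [[1], [2], [7], [8, 1], [2], [7], [1], [2], [7]]⟩,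
  ⟨false, 359, 324, [0, 1, 6, 2, 3, 4], [[8, 2], [3], [4], [2], [3], [4], [2], [3], [4]]⟩,
  ⟨false, 371, 34, [0, 1, 5, 2, 3, 7], [[2], [3], [7], [2], [8, 3], [7], [2], [3], [7]]⟩,
  ⟨false, 371, 337, [0, 3, 4, 1, 2, 6], [[1], [8, 2], [6], [1], [2], [6], [1], [2], [6]]⟩,
  ⟨false, 359, 97, [0, 3, 5, 1, 2, 7], [[1], [8, 2], [7], [1], [2], [7], [1], [2], [7]]⟩,
  ⟨false, 359, 262, [0, 1, 6, 2, 3, 4], [[2], [3], [4], [2], [8, 3], [4], [2], [3], [4]]⟩,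
  ⟨false, 371, 96, [0, 1, 5, 2, 3, 7], [[8, 2], [3], [7], [2], [3], [7], [2], [3], [7]]⟩,
  ⟨false, 371, 275, [0, 3, 4, 1, 2, 6], [[1], [2], [6], [8, 1], [2], [6], [1], [2], [6]]⟩,
  ⟨false, 910, 384, [1, 4, 7, 3, 5, 6], [[3], [5], [6], [3], [5], [6], [3], [8, 5], [6]]⟩,
  ⟨false, 910, 526, [0, 6, 7, 2, 4, 5], [[2], [4], [5], [2], [8, 4], [5], [2], [4], [5]]⟩,
  ⟨false, 922, 256, [1, 4, 5, 3, 6, 7], [[3], [6], [7], [3], [6], [7], [3], [6], [8, 7]]⟩,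
  ⟨false, 922, 666, [0, 4, 7, 2, 5, 6], [[2], [5], [6], [2], [5], [8, 6], [2], [5], [6]]⟩,
  ⟨false, 934, 422, [0, 5, 6, 2, 4, 7], [[2], [4], [7], [2], [4], [8, 7], [2], [4], [7]]⟩,
  ⟨false, 934, 512, [1, 6, 7, 3, 4, 5], [[3], [4], [5], [3], [8, 4], [5], [3], [4], [5]]⟩,
  ⟨false, 946, 306, [0, 4, 5, 2, 6, 7], [[2], [6], [7], [2], [6], [7], [2], [6], [8, 7]]⟩,
  ⟨false, 946, 640, [1, 5, 6, 3, 4, 7], [[3], [4], [7], [3], [4], [7], [3], [8, 4], [7]]⟩,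
  ⟨false, 638, 28, [0, 1, 2, 4, 6, 8], [[4], [6], [5, 8], [4], [3, 6], [8], [4], [6], [7, 8]]⟩,
  ⟨false, 638, 52, [0, 1, 2, 4, 6, 8], [[4], [6], [7, 8], [3, 4], [6], [8], [4], [6], [5, 8]]⟩,
  ⟨false, 638, 70, [0, 1, 3, 4, 6, 8], [[4], [2, 6], [8], [4], [6], [7, 8], [4], [6], [5, 8]]⟩,
  ⟨false, 638, 82, [0, 1, 3, 4, 6, 8], [[2, 4], [6], [8], [4], [6], [5, 8], [4], [6], [7, 8]]⟩,
  ⟨false, 638, 556, [0, 1, 2, 5, 7, 8], [[5], [7], [4, 8], [3, 5], [7], [8], [5], [7], [6, 8]]⟩,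
  ⟨false, 638, 568, [0, 1, 2, 5, 7, 8], [[5], [7], [6, 8], [5], [3, 7], [8], [5], [7], [4, 8]]⟩,
  ⟨false, 638, 586, [0, 1, 3, 5, 7, 8], [[5], [2, 7], [8], [5], [7], [4, 8], [5], [7], [6, 8]]⟩,
  ⟨false, 638, 610, [0, 1, 3, 5, 7, 8], [[2, 5], [7], [8], [5], [7], [6, 8], [5], [7], [4, 8]]⟩,
  ⟨true, 854, 0, [1, 3, 5, 7, 8], [[3], [5], [7], [8], [5], [7], [8], [7], [8], [8]]⟩,
  ⟨true, 854, 854, [0, 2, 4, 6, 8], [[2], [4], [6], [8], [4], [6], [8], [6], [8], [8]]⟩,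
  ⟨true, 874, 106, [0, 2, 5, 7, 8], [[2], [5], [7], [8], [5], [7], [8], [7], [8], [8]]⟩,
  ⟨true, 874, 768, [1, 3, 4, 6, 8], [[3], [4], [6], [8], [4], [6], [8], [6], [8], [8]]⟩,
  ⟨false, 861, 69, [0, 2, 5, 1, 3, 8], [[1], [4, 3], [8], [6, 1], [3], [8], [7, 1], [3], [8]]⟩,
  ⟨false, 861, 80, [0, 2, 5, 1, 3, 8], [[6, 1], [3], [8], [1], [4, 3], [8], [1], [7, 3], [8]]⟩,
  ⟨false, 861, 781, [0, 2, 8, 1, 3, 4], [[1], [5, 3], [4], [7, 1], [3], [6, 4], [1], [3], [4]]⟩,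
  ⟨false, 861, 792, [0, 2, 8, 1, 3, 4], [[5, 1], [3], [6, 4], [1], [7, 3], [4], [1], [3], [4]]⟩,
  ⟨false, 877, 12, [0, 2, 8, 1, 3, 5], [[4, 1], [3], [5], [1], [6, 3], [7, 5], [1], [3], [5]]⟩,
  ⟨false, 877, 37, [0, 2, 8, 1, 3, 5], [[1], [4, 3], [7, 5], [6, 1], [3], [5], [1], [3], [5]]⟩,
  ⟨false, 877, 840, [0, 2, 4, 1, 3, 8], [[5, 1], [3], [8], [1], [7, 3], [8], [1], [6, 3], [8]]⟩,
  ⟨false, 877, 865, [0, 2, 4, 1, 3, 8], [[1], [7, 3], [8], [5, 1], [3], [8], [6, 1], [3], [8]]⟩,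
  ⟨false, 885, 68, [0, 2, 5, 1, 3, 8], [[4, 1], [3], [8], [1], [6, 3], [8], [7, 1], [3], [8]]⟩,
  ⟨false, 885, 81, [0, 2, 5, 1, 3, 8], [[1], [6, 3], [8], [4, 1], [3], [8], [1], [7, 3], [8]]⟩,
  ⟨false, 885, 804, [0, 2, 8, 1, 3, 4], [[7, 1], [3], [4], [1], [5, 3], [6, 4], [1], [3], [4]]⟩,
  ⟨false, 885, 817, [0, 2, 8, 1, 3, 4], [[1], [7, 3], [6, 4], [5, 1], [3], [4], [1], [3], [4]]⟩,
  ⟨false, 889, 25, [0, 2, 8, 1, 3, 5], [[1], [6, 3], [5], [4, 1], [3], [7, 5], [1], [3], [5]]⟩,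
  ⟨false, 889, 48, [0, 2, 8, 1, 3, 5], [[6, 1], [3], [7, 5], [1], [4, 3], [5], [1], [3], [5]]⟩,
  ⟨false, 889, 841, [0, 2, 4, 1, 3, 8], [[1], [5, 3], [8], [7, 1], [3], [8], [1], [6, 3], [8]]⟩,
  ⟨false, 889, 864, [0, 2, 4, 1, 3, 8], [[7, 1], [3], [8], [1], [5, 3], [8], [6, 1], [3], [8]]⟩,
  ⟨false, 799, 269, [0, 3, 7, 1, 2, 5], [[1], [4, 6, 2], [5], [1], [2], [5], [1], [2], [8, 5]]⟩,
  ⟨false, 799, 280, [0, 1, 7, 2, 3, 5], [[6, 4, 2], [3], [5], [2], [3], [5], [2], [3], [8, 5]]⟩,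
  ⟨false, 799, 519, [0, 3, 6, 1, 2, 4], [[1], [2], [4], [5, 7, 1], [2], [4], [1], [2], [8, 4]]⟩,
  ⟨false, 799, 530, [0, 1, 4, 2, 3, 6], [[2], [3], [6], [2], [5, 7, 3], [6], [2], [3], [8, 6]]⟩,
  ⟨false, 815, 266, [0, 1, 7, 2, 3, 5], [[2], [3], [5], [2], [4, 6, 3], [5], [2], [3], [8, 5]]⟩,
  ⟨false, 815, 291, [0, 3, 5, 1, 2, 7], [[1], [2], [7], [4, 6, 1], [2], [7], [1], [2], [8, 7]]⟩,
  ⟨false, 815, 524, [0, 1, 6, 2, 3, 4], [[5, 7, 2], [3], [4], [2], [3], [4], [2], [3], [8, 4]]⟩,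
  ⟨false, 815, 549, [0, 3, 6, 1, 2, 4], [[1], [7, 5, 2], [4], [1], [2], [4], [1], [2], [8, 4]]⟩,
  ⟨false, 823, 292, [0, 1, 5, 2, 3, 7], [[4, 6, 2], [3], [7], [2], [3], [7], [2], [3], [8, 7]]⟩,
  ⟨false, 823, 305, [0, 3, 5, 1, 2, 7], [[1], [6, 4, 2], [7], [1], [2], [7], [1], [2], [8, 7]]⟩,
  ⟨false, 823, 518, [0, 1, 6, 2, 3, 4], [[2], [3], [4], [2], [7, 5, 3], [4], [2], [3], [8, 4]]⟩,
  ⟨false, 823, 531, [0, 3, 4, 1, 2, 6], [[1], [2], [6], [7, 5, 1], [2], [6], [1], [2], [8, 6]]⟩,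
  ⟨false, 827, 267, [0, 3, 7, 1, 2, 5], [[1], [2], [5], [6, 4, 1], [2], [5], [1], [2], [8, 5]]⟩,
  ⟨false, 827, 290, [0, 1, 5, 2, 3, 7], [[2], [3], [7], [2], [6, 4, 3], [7], [2], [3], [8, 7]]⟩,
  ⟨false, 827, 537, [0, 3, 4, 1, 2, 6], [[1], [5, 7, 2], [6], [1], [2], [6], [1], [2], [8, 6]]⟩,
  ⟨false, 827, 560, [0, 1, 4, 2, 3, 6], [[7, 5, 2], [3], [6], [2], [3], [6], [2], [3], [8, 6]]⟩,
  ⟨false, 734, 70, [0, 5, 7, 4, 6, 8], [[4], [2, 6], [8], [3, 4], [6], [8], [4], [1, 6], [8]]⟩,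
  ⟨false, 734, 210, [0, 5, 7, 4, 6, 8], [[2, 4], [6], [8], [4], [1, 6], [8], [3, 4], [6], [8]]⟩,
  ⟨false, 734, 524, [1, 4, 6, 5, 7, 8], [[3, 5], [7], [8], [0, 5], [7], [8], [5], [2, 7], [8]]⟩,
  ⟨false, 734, 664, [1, 4, 6, 5, 7, 8], [[5], [3, 7], [8], [5], [2, 7], [8], [0, 5], [7], [8]]⟩,
  ⟨false, 750, 12, [1, 5, 7, 4, 6, 8], [[4], [3, 6], [8], [0, 4], [6], [8], [4], [2, 6], [8]]⟩,
  ⟨false, 750, 164, [1, 5, 7, 4, 6, 8], [[3, 4], [6], [8], [4], [2, 6], [8], [0, 4], [6], [8]]⟩,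
  ⟨false, 750, 586, [0, 4, 6, 5, 7, 8], [[5], [2, 7], [8], [1, 5], [7], [8], [5], [3, 7], [8]]⟩,
  ⟨false, 750, 738, [0, 4, 6, 5, 7, 8], [[2, 5], [7], [8], [5], [3, 7], [8], [1, 5], [7], [8]]⟩,
  ⟨false, 758, 82, [0, 5, 7, 4, 6, 8], [[2, 4], [6], [8], [1, 4], [6], [8], [4], [3, 6], [8]]⟩,
  ⟨false, 758, 198, [0, 5, 7, 4, 6, 8], [[4], [2, 6], [8], [4], [3, 6], [8], [1, 4], [6], [8]]⟩,
  ⟨false, 758, 560, [1, 4, 6, 5, 7, 8], [[5], [3, 7], [8], [2, 5], [7], [8], [5], [0, 7], [8]]⟩,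
  ⟨false, 758, 676, [1, 4, 6, 5, 7, 8], [[3, 5], [7], [8], [5], [0, 7], [8], [2, 5], [7], [8]]⟩,
  ⟨false, 762, 48, [1, 5, 7, 4, 6, 8], [[3, 4], [6], [8], [2, 4], [6], [8], [4], [0, 6], [8]]⟩,
  ⟨false, 762, 152, [1, 5, 7, 4, 6, 8], [[4], [3, 6], [8], [4], [0, 6], [8], [2, 4], [6], [8]]⟩,
  ⟨false, 762, 610, [0, 4, 6, 5, 7, 8], [[2, 5], [7], [8], [3, 5], [7], [8], [5], [1, 7], [8]]⟩,
  ⟨false, 762, 714, [0, 4, 6, 5, 7, 8], [[5], [2, 7], [8], [5], [1, 7], [8], [3, 5], [7], [8]]⟩,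
  ⟨true, 766, 20, [1, 3, 4, 6, 8], [[3], [4], [6], [8], [4], [6], [8], [2, 6], [7, 8], [5, 8]]⟩,
  ⟨true, 766, 86, [0, 2, 4, 6, 8], [[2], [4], [6], [8], [4], [6], [8], [3, 6], [7, 8], [5, 8]]⟩,
  ⟨true, 766, 148, [1, 3, 4, 6, 8], [[3], [4], [6], [8], [4], [6], [8], [2, 6], [5, 8], [7, 8]]⟩,
  ⟨true, 766, 214, [0, 2, 4, 6, 8], [[2], [4], [6], [8], [4], [6], [8], [3, 6], [5, 8], [7, 8]]⟩,
  ⟨true, 766, 552, [1, 3, 5, 7, 8], [[3], [5], [7], [8], [5], [7], [8], [2, 7], [6, 8], [4, 8]]⟩,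
  ⟨true, 766, 618, [0, 2, 5, 7, 8], [[2], [5], [7], [8], [5], [7], [8], [3, 7], [6, 8], [4, 8]]⟩,
  ⟨true, 766, 680, [1, 3, 5, 7, 8], [[3], [5], [7], [8], [5], [7], [8], [2, 7], [4, 8], [6, 8]]⟩,
  ⟨true, 766, 746, [0, 2, 5, 7, 8], [[2], [5], [7], [8], [5], [7], [8], [3, 7], [4, 8], [6, 8]]⟩,
  ⟨true, 855, 64, [1, 3, 5, 7, 8], [[3], [5], [7], [2, 8], [5], [7], [0, 8], [7], [8], [8]]⟩,
  ⟨true, 855, 65, [1, 3, 5, 7, 8], [[3], [5], [7], [0, 8], [5], [7], [2, 8], [7], [8], [8]]⟩,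
  ⟨true, 855, 790, [0, 2, 4, 6, 8], [[2], [4], [6], [3, 8], [4], [6], [1, 8], [6], [8], [8]]⟩,
  ⟨true, 855, 791, [0, 2, 4, 6, 8], [[2], [4], [6], [1, 8], [4], [6], [3, 8], [6], [8], [8]]⟩,
  ⟨true, 875, 42, [0, 2, 5, 7, 8], [[2], [5], [7], [3, 8], [5], [7], [1, 8], [7], [8], [8]]⟩,
  ⟨true, 875, 43, [0, 2, 5, 7, 8], [[2], [5], [7], [1, 8], [5], [7], [3, 8], [7], [8], [8]]⟩,
  ⟨true, 875, 832, [1, 3, 4, 6, 8], [[3], [4], [6], [2, 8], [4], [6], [0, 8], [6], [8], [8]]⟩,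
  ⟨true, 875, 833, [1, 3, 4, 6, 8], [[3], [4], [6], [0, 8], [4], [6], [2, 8], [6], [8], [8]]⟩,
  ⟨true, 983, 258, [1, 3, 5, 7, 8], [[2, 0, 3], [5], [7], [8], [5], [7], [8], [6, 4, 7], [8], [8]]⟩,
  ⟨true, 983, 259, [1, 3, 5, 7, 8], [[0, 2, 3], [5], [7], [8], [5], [7], [8], [6, 4, 7], [8], [8]]⟩,
  ⟨true, 983, 386, [1, 3, 5, 7, 8], [[2, 0, 3], [5], [7], [8], [5], [7], [8], [4, 6, 7], [8], [8]]⟩,
  ⟨true, 983, 387, [1, 3, 5, 7, 8], [[0, 2, 3], [5], [7], [8], [5], [7], [8], [4, 6, 7], [8], [8]]⟩,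
  ⟨true, 983, 596, [0, 2, 4, 6, 8], [[3, 1, 2], [4], [6], [8], [4], [6], [8], [7, 5, 6], [8], [8]]⟩,
  ⟨true, 983, 597, [0, 2, 4, 6, 8], [[1, 3, 2], [4], [6], [8], [4], [6], [8], [7, 5, 6], [8], [8]]⟩,
  ⟨true, 983, 724, [0, 2, 4, 6, 8], [[3, 1, 2], [4], [6], [8], [4], [6], [8], [5, 7, 6], [8], [8]]⟩,
  ⟨true, 983, 725, [0, 2, 4, 6, 8], [[1, 3, 2], [4], [6], [8], [4], [6], [8], [5, 7, 6], [8], [8]]⟩,
  ⟨true, 1003, 360, [0, 2, 5, 7, 8], [[3, 1, 2], [5], [7], [8], [5], [7], [8], [6, 4, 7], [8], [8]]⟩,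
  ⟨true, 1003, 361, [0, 2, 5, 7, 8], [[1, 3, 2], [5], [7], [8], [5], [7], [8], [6, 4, 7], [8], [8]]⟩,
  ⟨true, 1003, 488, [0, 2, 5, 7, 8], [[3, 1, 2], [5], [7], [8], [5], [7], [8], [4, 6, 7], [8], [8]]⟩,
  ⟨true, 1003, 489, [0, 2, 5, 7, 8], [[1, 3, 2], [5], [7], [8], [5], [7], [8], [4, 6, 7], [8], [8]]⟩,
  ⟨true, 1003, 514, [1, 3, 4, 6, 8], [[2, 0, 3], [4], [6], [8], [4], [6], [8], [7, 5, 6], [8], [8]]⟩,
  ⟨true, 1003, 515, [1, 3, 4, 6, 8], [[0, 2, 3], [4], [6], [8], [4], [6], [8], [7, 5, 6], [8], [8]]⟩,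
  ⟨true, 1003, 642, [1, 3, 4, 6, 8], [[2, 0, 3], [4], [6], [8], [4], [6], [8], [5, 7, 6], [8], [8]]⟩,
  ⟨true, 1003, 643, [1, 3, 4, 6, 8], [[0, 2, 3], [4], [6], [8], [4], [6], [8], [5, 7, 6], [8], [8]]⟩,
  ⟨true, 847, 8, [1, 3, 5, 7, 8], [[3], [5], [2, 7], [8], [0, 5], [7], [8], [7], [8], [8]]⟩,
  ⟨true, 847, 74, [0, 2, 5, 7, 8], [[2], [5], [3, 7], [8], [1, 5], [7], [8], [7], [8], [8]]⟩,
  ⟨true, 847, 773, [1, 3, 4, 6, 8], [[3], [0, 4], [6], [8], [4], [2, 6], [8], [6], [8], [8]]⟩,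
  ⟨true, 847, 839, [0, 2, 4, 6, 8], [[2], [4], [1, 6], [8], [3, 4], [6], [8], [6], [8], [8]]⟩,
  ⟨true, 859, 9, [1, 3, 5, 7, 8], [[3], [0, 5], [7], [8], [5], [2, 7], [8], [7], [8], [8]]⟩,
  ⟨true, 859, 75, [0, 2, 5, 7, 8], [[2], [5], [1, 7], [8], [3, 5], [7], [8], [7], [8], [8]]⟩,
  ⟨true, 859, 784, [1, 3, 4, 6, 8], [[3], [2, 4], [6], [8], [4], [0, 6], [8], [6], [8], [8]]⟩,
  ⟨true, 859, 850, [0, 2, 4, 6, 8], [[2], [3, 4], [6], [8], [4], [1, 6], [8], [6], [8], [8]]⟩,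
  ⟨true, 871, 33, [1, 3, 5, 7, 8], [[3], [5], [0, 7], [8], [2, 5], [7], [8], [7], [8], [8]]⟩,
  ⟨true, 871, 99, [0, 2, 5, 7, 8], [[2], [1, 5], [7], [8], [5], [3, 7], [8], [7], [8], [8]]⟩,
  ⟨true, 871, 772, [1, 3, 4, 6, 8], [[3], [4], [2, 6], [8], [0, 4], [6], [8], [6], [8], [8]]⟩,
  ⟨true, 871, 838, [0, 2, 4, 6, 8], [[2], [4], [3, 6], [8], [1, 4], [6], [8], [6], [8], [8]]⟩,
  ⟨true, 883, 32, [1, 3, 5, 7, 8], [[3], [2, 5], [7], [8], [5], [0, 7], [8], [7], [8], [8]]⟩,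
  ⟨true, 883, 98, [0, 2, 5, 7, 8], [[2], [3, 5], [7], [8], [5], [1, 7], [8], [7], [8], [8]]⟩,
  ⟨true, 883, 785, [1, 3, 4, 6, 8], [[3], [4], [0, 6], [8], [2, 4], [6], [8], [6], [8], [8]]⟩,
  ⟨true, 883, 851, [0, 2, 4, 6, 8], [[2], [1, 4], [6], [8], [4], [3, 6], [8], [6], [8], [8]]⟩]

theorem valid1 : L1.all (valid R1 P1) = true := by decide +kernel
theorem valid2 : L2.all (valid R2 P2) = true := by decide +kernel

theorem cover1 : (List.range (2 ^ 5)).all (fun n => L1.any fun c => (n &&& c.m) == c.v) = true := by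
  decide +kernel
theorem cover2 : (List.range (2 ^ 10)).all (fun n => L2.any fun c => (n &&& c.m) == c.v) = true := by
  decide +kernel

/-- the tables are correct -/
def tableOK (t : Bool) (R P : ℕ) (base : List (ℕ × ℕ)) : Bool :=
  (base.all fun i => decide (i.1 < 9) && (decide (i.2 < 9) && (i.1 != i.2))) &&
  (List.range 9).all fun x => (List.range 9).all fun y => (x == y) ||
    (decide (repF R x y < base.length) && (List.range 8).any fun k =>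
      (((tau t)^[k] (base.getD (repF R x y) (0, 0)).1 == x &&
        (tau t)^[k] (base.getD (repF R x y) (0, 0)).2 == y) ||
       ((tau t)^[k] (base.getD (repF R x y) (0, 0)).1 == y &&
        (tau t)^[k] (base.getD (repF R x y) (0, 0)).2 == x)) && (parF P x y == (k % 2 == 1)))

theorem table1 : tableOK true R1 P1 base1 = true := by decide +kernel
theorem table2 : tableOK false R2 P2 base2 = true := by decide +kernel

theorem tau_lt (t : Bool) : ∀ x < 9, tau t x < 9 := by cases t <;> decide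
theorem tau_inj (t : Bool) : ∀ x < 9, ∀ y < 9, tau t x = tau t y → x = y := by cases t <;> decide

/-- a Boolean relation with an antimorphism -/
structure Anti (t : Bool) (B : ℕ → ℕ → Bool) : Prop where
  symm : ∀ x < 9, ∀ y < 9, x ≠ y → B x y = B y x
  anti : ∀ x < 9, ∀ y < 9, x ≠ y → B (tau t x) (tau t y) = !B x y

theorem Anti.iter {t : Bool} {B : ℕ → ℕ → Bool} (h : Anti t B) (k : ℕ) :
    ∀ x < 9, ∀ y < 9, x ≠ y → ((tau t)^[k] x < 9 ∧ (tau t)^[k] y < 9 ∧ (tau t)^[k] x ≠ (tau t)^[k] y) ∧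
      B ((tau t)^[k] x) ((tau t)^[k] y) = (B x y != (k % 2 == 1)) := by
  induction k with
  | zero => intro x hx y hy hxy; simp [hx, hy, hxy]
  | succ k ih =>
    intro x hx y hy hxy
    obtain ⟨⟨h1, h2, h3⟩, h4⟩ := ih x hx y hy hxy
    rw [Function.iterate_succ_apply', Function.iterate_succ_apply']
    refine ⟨⟨tau_lt t _ h1, tau_lt t _ h2, fun e => h3 (tau_inj t _ h1 _ h2 e)⟩, ?_⟩
    rw [h.anti _ h1 _ h2 h3, h4]
    rcases Nat.mod_two_eq_zero_or_one k with hk | hk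
    · have : (k + 1) % 2 = 1 := by omega
      simp [hk, this]
    · have : (k + 1) % 2 = 0 := by omega
      simp [hk, this]

/-- every value is given by the table -/
theorem Anti.val {t : Bool} {B : ℕ → ℕ → Bool} (h : Anti t B) {R P : ℕ} {base : List (ℕ × ℕ)}
    (hT : tableOK t R P base = true) : ∀ x < 9, ∀ y < 9, x ≠ y → repF R x y < base.length ∧
      B x y = (B (base.getD (repF R x y) (0, 0)).1 (base.getD (repF R x y) (0, 0)).2 != parF P x y) := by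
  intro x hx y hy hxy
  rw [tableOK, Bool.and_eq_true, List.all_eq_true, List.all_eq_true] at hT
  obtain ⟨hb, hT⟩ := hT
  have h1 := hT x (List.mem_range.mpr hx)
  rw [List.all_eq_true] at h1
  have h2 := h1 y (List.mem_range.mpr hy)
  simp only [Bool.or_eq_true, beq_iff_eq, Bool.and_eq_true, decide_eq_true_eq, List.any_eq_true,
    List.mem_range] at h2
  rcases h2 with h2 | ⟨h2, k, -, h3, h4⟩
  · exact absurd h2 hxy
  refine ⟨h2, ?_⟩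
  have hmem : base.getD (repF R x y) (0, 0) ∈ base := by
    rw [List.getD_eq_getElem _ _ h2]; exact List.getElem_mem h2
  have h5 := hb _ hmem
  simp only [Bool.and_eq_true, decide_eq_true_eq, bne_iff_ne] at h5
  obtain ⟨h6, h7, h8⟩ := h5
  obtain ⟨-, h9⟩ := h.iter k _ h6 _ h7 h8
  rw [h4]
  rcases h3 with ⟨e1, e2⟩ | ⟨e1, e2⟩
  · rw [e1, e2] at h9; exact h9
  · rw [e1, e2] at h9
    rw [h.symm x hx y hy hxy]; exact h9

/-- the number with given bits -/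
theorem exists_bits (n : ℕ) (f : ℕ → Bool) : ∃ N < 2 ^ n, ∀ i < n, N.testBit i = f i := by
  refine ⟨Nat.ofBits (fun i : Fin n => f i), Nat.ofBits_lt_two_pow _, fun i hi => ?_⟩
  rw [Nat.testBit_ofBits_lt _ _ hi]

/-- Some certificate applies. -/
theorem exists_cert {t : Bool} {B : ℕ → ℕ → Bool} (h : Anti t B) {R P : ℕ} {base : List (ℕ × ℕ)}
    (hT : tableOK t R P base = true) {L : List Cert} {n : ℕ} (hn : base.length = n)
    (hL : (List.range (2 ^ n)).all (fun n => L.any fun c => (n &&& c.m) == c.v) = true) :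
    ∃ c ∈ L, ∀ x y, edgeOK R P c.m c.v x y = true → x < 9 ∧ y < 9 ∧ x ≠ y ∧ B x y = true := by
  obtain ⟨N, hN, hb⟩ := exists_bits n (fun i => B (base.getD i (0, 0)).1 (base.getD i (0, 0)).2)
  rw [List.all_eq_true] at hL
  have h1 := hL N (List.mem_range.mpr hN)
  rw [List.any_eq_true] at h1
  obtain ⟨c, hc, h2⟩ := h1
  rw [beq_iff_eq] at h2
  refine ⟨c, hc, fun x y hxy => ?_⟩
  simp only [edgeOK, Bool.and_eq_true, decide_eq_true_eq, bne_iff_ne] at hxy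
  obtain ⟨hx, hy, hne, hm, hv⟩ := hxy
  refine ⟨hx, hy, hne, ?_⟩
  obtain ⟨hr, he⟩ := h.val hT x hx y hy hne
  rw [he, ← hb _ (hn ▸ hr)]
  have h3 : c.v.testBit (repF R x y) = N.testBit (repF R x y) := by
    rw [← h2, Nat.testBit_and, hm, Bool.and_true]
  rw [← h3]
  cases h5 : c.v.testBit (repF R x y) <;> cases h6 : parF P x y <;> simp_all

end Pool.Agent.U694.K9
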