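import Mathlib

set_option autoImplicit false

/-! The crossing tuples and the drawings of the frozen statement, for the complete graph on nine vertices. -/

namespace Pool.Agent.U694.K9

/-- the crossing tuples of a drawing of the complete graph on nine vertices on two planes -/
def XS (c : Fin 9 → Fin 9 → Fin 2) (γ : Fin 2 → Fin 9 → Fin 9 → ℝ → ℂ) :
    Set (Fin 2 × Fin 9 × Fin 9 × Fin 9 × Fin 9 × ℂ) :=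
  {x : Fin 2 × Fin 9 × Fin 9 × Fin 9 × Fin 9 × ℂ |
    (⊤ : SimpleGraph (Fin 9)).Adj x.2.1 x.2.2.1 ∧ (⊤ : SimpleGraph (Fin 9)).Adj x.2.2.2.1 x.2.2.2.2.1 ∧
    c x.2.1 x.2.2.1 = x.1 ∧ c x.2.2.2.1 x.2.2.2.2.1 = x.1 ∧
    ¬ (x.2.1 = x.2.2.2.1 ∧ x.2.2.1 = x.2.2.2.2.1) ∧
    ¬ (x.2.1 = x.2.2.2.2.1 ∧ x.2.2.1 = x.2.2.2.1) ∧
    (∃ t : ℝ, 0 < t ∧ t < 1 ∧ γ x.1 x.2.1 x.2.2.1 t = x.2.2.2.2.2) ∧
    (∃ t : ℝ, 0 < t ∧ t < 1 ∧ γ x.1 x.2.2.2.1 x.2.2.2.2.1 t = x.2.2.2.2.2)}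

/-- a drawing of the complete graph on nine vertices on two planes -/
def DR (c : Fin 9 → Fin 9 → Fin 2) (p : Fin 2 → Fin 9 → ℂ) (γ : Fin 2 → Fin 9 → Fin 9 → ℝ → ℂ) : Prop :=
  (∀ u v : Fin 9, (⊤ : SimpleGraph (Fin 9)).Adj u v → c u v = c v u) ∧
    (∀ i : Fin 2, Function.Injective (p i)) ∧
    (∀ i : Fin 2, ∀ u v : Fin 9, (⊤ : SimpleGraph (Fin 9)).Adj u v → c u v = i →
      ContinuousOn (γ i u v) (Set.Icc (0:ℝ) 1) ∧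
      Set.InjOn (γ i u v) (Set.Icc (0:ℝ) 1) ∧
      γ i u v 0 = p i u ∧ γ i u v 1 = p i v ∧
      (∀ t : ℝ, 0 ≤ t → t ≤ 1 → γ i v u t = γ i u v (1 - t)) ∧
      ∀ t : ℝ, 0 < t → t < 1 → ∀ w : Fin 9, γ i u v t ≠ p i w)

end Pool.Agent.U694.K9
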